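import Pool.Agent.helper88.BK.Lower

/-!
The triple `(7, 8, 8)` has a minimum-order graph (on 22 vertices) that is disconnected and in
which no vertex of degree 8 lies in a 7-clique.
-/

set_option autoImplicit false

namespace Pool.Agent.Results.MP_663e97_co.DisconnectedMinOrder

open Finset

/-- The triple `(a, b, c)` is graphical via `G`: clique number `a`, chromatic number `b` and
maximum degree `c`. -/
def Via {V : Type} [Fintype V] (G : SimpleGraph V) [DecidableRel G.Adj] (a b c : ℕ) : Prop :=
  G.cliqueNum = a ∧ G.chromaticNumber = (b : ℕ∞) ∧ G.maxDegree = c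

/-- `G` is a minimum-order `(a, b, c)`-graph. -/
def IsMinimumOrder {V : Type} [Fintype V] (G : SimpleGraph V) [DecidableRel G.Adj]
    (a b c : ℕ) : Prop :=
  Via G a b c ∧
    ∀ (W : Type) [Fintype W] (H : SimpleGraph W) [DecidableRel H.Adj],
      Via H a b c → Fintype.card V ≤ Fintype.card W

/-- the vertex set of the example -/
abbrev X : Type := (Fin 5 × Fin 3) ⊕ Fin 7

/-- adjacency in the example: the blow-up `C_5[K_3]` together with a disjoint `K_7` -/
def adjB : X → X → Bool
  | Sum.inl p, Sum.inl q =>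
      (decide (p.1 = q.1) && !decide (p.2 = q.2)) || decide (q.1 = p.1 + 1) ||
        decide (p.1 = q.1 + 1)
  | Sum.inr i, Sum.inr j => !decide (i = j)
  | _, _ => false

/-- the example graph -/
def Ex : SimpleGraph X where
  Adj p q := adjB p q = true
  symm := ⟨by
    intro p q h
    rcases p with p | i <;> rcases q with q | j <;> simp only [adjB] at h ⊢
    · simp only [Bool.or_eq_true, Bool.and_eq_true, decide_eq_true_eq, Bool.not_eq_true',
        decide_eq_false_iff_not] at h ⊢
      rcases h with (h | h) | h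
      · exact Or.inl (Or.inl ⟨h.1.symm, fun g => h.2 g.symm⟩)
      · exact Or.inr h
      · exact Or.inl (Or.inr h)
    · exact absurd h (by simp)
    · exact absurd h (by simp)
    · simp only [Bool.not_eq_true', decide_eq_false_iff_not] at h ⊢
      exact fun g => h g.symm⟩
  loopless := ⟨by
    intro p h
    have h1 : ∀ (i : Fin 5) (j : Fin 3),
        adjB (Sum.inl (i, j)) (Sum.inl (i, j)) = false := by decide
    have h2 : ∀ i : Fin 7, adjB (Sum.inr i) (Sum.inr i) = false := by decide
    rcases p with ⟨i, j⟩ | i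
    · rw [h1] at h
      exact absurd h (by simp)
    · rw [h2] at h
      exact absurd h (by simp)⟩

instance : DecidableRel Ex.Adj := fun p q => inferInstanceAs (Decidable (adjB p q = true))

theorem ex_ll (p q : Fin 5 × Fin 3) : Ex.Adj (Sum.inl p) (Sum.inl q) ↔
    ((p.1 = q.1 ∧ p.2 ≠ q.2) ∨ q.1 = p.1 + 1) ∨ p.1 = q.1 + 1 := by
  show adjB _ _ = true ↔ _
  simp [adjB]

theorem ex_lr (p : Fin 5 × Fin 3) (i : Fin 7) : ¬ Ex.Adj (Sum.inl p) (Sum.inr i) := by
  show ¬ adjB _ _ = true
  simp [adjB]

theorem ex_rl (p : Fin 5 × Fin 3) (i : Fin 7) : ¬ Ex.Adj (Sum.inr i) (Sum.inl p) := by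
  show ¬ adjB _ _ = true
  simp [adjB]

theorem ex_rr (i j : Fin 7) : Ex.Adj (Sum.inr i) (Sum.inr j) ↔ i ≠ j := by
  show adjB _ _ = true ↔ _
  simp [adjB]

theorem deg_l : ∀ p : Fin 5 × Fin 3, Ex.degree (Sum.inl p) = 8 := by decide +kernel

theorem deg_r : ∀ i : Fin 7, Ex.degree (Sum.inr i) = 6 := by decide +kernel

theorem no_tri : ∀ i j k : Fin 5, i ≠ j → i ≠ k → j ≠ k → (j = i + 1 ∨ i = j + 1) →
    (k = i + 1 ∨ i = k + 1) → (k = j + 1 ∨ j = k + 1) → False := by decide +kernel

theorem no_indep : ∀ i j k : Fin 5, i ≠ j → i ≠ k → j ≠ k → ¬ (j = i + 1 ∨ i = j + 1) →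
    ¬ (k = i + 1 ∨ i = k + 1) → ¬ (k = j + 1 ∨ j = k + 1) → False := by decide +kernel

/-- a clique containing a vertex of the blow-up has at most six vertices -/
theorem clique_left (t : Finset X) (ht : Ex.IsClique t) (p0 : Fin 5 × Fin 3)
    (hp0 : Sum.inl p0 ∈ t) : t.card ≤ 6 := by
  classical
  have hin : ∀ x ∈ t, ∃ p, x = Sum.inl p := by
    intro x hx
    rcases x with p | i
    · exact ⟨p, rfl⟩
    · exact absurd (ht hp0 hx (by simp)) (ex_lr p0 i)
  let f : X → Fin 5 := Sum.elim (fun p => p.1) (fun _ => 0)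
  have hcard : (t.image f).card ≤ 2 := by
    by_contra hcon
    push Not at hcon
    obtain ⟨i, hi, j, hj, k, hk, hij, hik, hjk⟩ := Finset.two_lt_card.1 hcon
    obtain ⟨x, hx, rfl⟩ := Finset.mem_image.1 hi
    obtain ⟨y, hy, rfl⟩ := Finset.mem_image.1 hj
    obtain ⟨z, hz, rfl⟩ := Finset.mem_image.1 hk
    obtain ⟨p, rfl⟩ := hin x hx
    obtain ⟨q, rfl⟩ := hin y hy
    obtain ⟨r, rfl⟩ := hin z hz
    simp only [f, Sum.elim_inl] at hij hik hjk
    have aux : ∀ p q : Fin 5 × Fin 3, Sum.inl p ∈ t → Sum.inl q ∈ t → p.1 ≠ q.1 →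
        (q.1 = p.1 + 1 ∨ p.1 = q.1 + 1) := by
      intro p q hp hq hpq
      have h1 := ht hp hq (by
        intro h
        exact hpq (by rw [Sum.inl.inj h]))
      rw [ex_ll] at h1
      rcases h1 with (h | h) | h
      · exact absurd h.1 hpq
      · exact Or.inl h
      · exact Or.inr h
    exact no_tri p.1 q.1 r.1 hij hik hjk (aux p q hx hy hij) (aux p r hx hz hik)
      (aux q r hy hz hjk)
  have hfib : ∀ i ∈ t.image f, (t.filter (fun x => f x = i)).card ≤ 3 := by
    intro i _
    have h1 : (t.filter (fun x => f x = i)).card ≤ (Finset.univ : Finset (Fin 3)).card := by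
      apply Finset.card_le_card_of_injOn (fun x : X => Sum.elim (fun p => p.2) (fun _ => 0) x)
      · intro x _; exact Finset.mem_coe.2 (Finset.mem_univ _)
      · intro x hx y hy hxy
        simp only [Finset.coe_filter, Set.mem_ofPred_eq] at hx hy
        obtain ⟨p, rfl⟩ := hin x hx.1
        obtain ⟨q, rfl⟩ := hin y hy.1
        simp only [f, Sum.elim_inl] at hx hy hxy
        rw [Prod.ext (hx.2.trans hy.2.symm) hxy]
    simpa using h1
  have h2 := Finset.card_le_mul_card_image (f := f) t 3 hfib
  omega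

theorem clique_bound (t : Finset X) (ht : Ex.IsClique t) : t.card ≤ 7 := by
  classical
  by_cases h : ∃ p, Sum.inl p ∈ t
  · obtain ⟨p, hp⟩ := h
    have := clique_left t ht p hp
    omega
  · push Not at h
    have h1 : t.card ≤ (Finset.univ : Finset (Fin 7)).card := by
      apply Finset.card_le_card_of_injOn (fun x : X => Sum.elim (fun _ => 0) (fun i => i) x)
      · intro x _; exact Finset.mem_coe.2 (Finset.mem_univ _)
      · intro x hx y hy hxy
        rcases x with p | i
        · exact absurd hx (h p)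
        · rcases y with q | j
          · exact absurd hy (h q)
          · simp only [Sum.elim_inr] at hxy
            rw [hxy]
    simpa using h1

theorem cliqueNum_ex : Ex.cliqueNum = 7 := by
  apply le_antisymm
  · obtain ⟨s, hs⟩ := Ex.exists_isNClique_cliqueNum
    rw [← hs.2]
    exact clique_bound s hs.1
  · have hcl : Ex.IsClique ((Finset.univ.map ⟨Sum.inr, Sum.inr_injective⟩ : Finset X) : Set X) := by
      intro x hx y hy hxy
      simp only [Finset.coe_map, Function.Embedding.coeFn_mk, Finset.coe_univ, Set.image_univ,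
        Set.mem_range] at hx hy
      obtain ⟨i, rfl⟩ := hx
      obtain ⟨j, rfl⟩ := hy
      rw [ex_rr]
      rintro rfl
      exact hxy rfl
    have h1 := hcl.card_le_cliqueNum
    simpa using h1

/-- explicit 8-colouring of the example -/
def col8 : X → Fin 8
  | Sum.inl p => ![![0, 1, 2], ![3, 4, 5], ![6, 7, 0], ![1, 2, 3], ![4, 5, 6]] p.1 p.2
  | Sum.inr i => i.castSucc

theorem col8_ok : ∀ p q : X, Ex.Adj p q → col8 p ≠ col8 q := by decide +kernel

theorem not_col7 : ¬ Ex.Colorable 7 := by
  classical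
  rintro ⟨C⟩
  let f : Fin 5 × Fin 3 → Fin 7 := fun p => C (Sum.inl p)
  have h1 : (Finset.univ : Finset (Fin 7)).card * 2 < (Finset.univ : Finset (Fin 5 × Fin 3)).card := by
    simp
  obtain ⟨c, _, hc⟩ := Finset.exists_lt_card_fiber_of_mul_lt_card_of_maps_to
    (f := f) (fun p _ => Finset.mem_univ _) h1
  obtain ⟨p, hp, q, hq, r, hr, hpq, hpr, hqr⟩ := Finset.two_lt_card.1 hc
  simp only [Finset.mem_filter, Finset.mem_univ, true_and] at hp hq hr
  have aux : ∀ p q : Fin 5 × Fin 3, f p = c → f q = c → p ≠ q →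
      (p.1 ≠ q.1 ∧ ¬ (q.1 = p.1 + 1 ∨ p.1 = q.1 + 1)) := by
    intro p q hp hq hpq
    have hn : ¬ Ex.Adj (Sum.inl p) (Sum.inl q) := by
      intro hadj
      exact C.valid hadj (hp.trans hq.symm)
    rw [ex_ll] at hn
    push Not at hn
    have hne : p.1 ≠ q.1 := by
      intro h
      exact hpq (Prod.ext h (hn.1.1 h))
    refine ⟨hne, ?_⟩
    rintro (h | h)
    · exact hn.1.2 h
    · exact hn.2 h
  have a1 := aux p q hp hq hpq
  have a2 := aux p r hp hr hpr
  have a3 := aux q r hq hr hqr
  exact no_indep p.1 q.1 r.1 a1.1 a2.1 a3.1 a1.2 a2.2 a3.2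

theorem via_ex : Via Ex 7 8 8 := by
  refine ⟨cliqueNum_ex, ?_, ?_⟩
  · apply le_antisymm
    · rw [SimpleGraph.chromaticNumber_le_iff_colorable]
      exact ⟨SimpleGraph.Coloring.mk col8 (fun {p q} h => col8_ok p q h)⟩
    · by_contra hcon
      push Not at hcon
      have h1 : Ex.chromaticNumber ≤ (7 : ℕ) := by
        have : Ex.chromaticNumber < ((7 : ℕ) : ℕ∞) + 1 := by
          have e : ((8 : ℕ) : ℕ∞) = ((7 : ℕ) : ℕ∞) + 1 := by norm_num
          rwa [e] at hcon
        exact ENat.lt_add_one_iff (ENat.natCast_ne_top 7) |>.1 this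
      rw [SimpleGraph.chromaticNumber_le_iff_colorable] at h1
      exact not_col7 h1
  · apply le_antisymm
    · apply SimpleGraph.maxDegree_le_of_forall_degree_le
      rintro (p | i)
      · exact (deg_l p).le
      · rw [deg_r i]; norm_num
    · rw [← deg_l (0, 0)]
      exact SimpleGraph.degree_le_maxDegree Ex _

theorem lower (W : Type) [Fintype W] (H : SimpleGraph W) [DecidableRel H.Adj]
    (hH : Via H 7 8 8) : 22 ≤ Fintype.card W := by
  classical
  by_contra hcon
  push Not at hcon
  obtain ⟨h1, h2, h3⟩ := hH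
  obtain ⟨s, hs⟩ := H.exists_isNClique_cliqueNum
  rw [h1] at hs
  have hfree : H.CliqueFree 8 := by
    intro t ht
    have h4 := ht.1.card_le_cliqueNum
    rw [ht.2, h1] at h4
    omega
  have hcol := Pool.Agent.helper88.BK.colorable7 (by omega) H
    (fun v => (H.degree_le_maxDegree v).trans h3.le) s hs hfree
  rw [← SimpleGraph.chromaticNumber_le_iff_colorable, h2] at hcol
  have : (8 : ℕ) ≤ 7 := by exact_mod_cast hcol
  omega

theorem reach_side {x y : X} (h : Ex.Reachable x y) : x.isLeft = y.isLeft := by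
  obtain ⟨w⟩ := h
  induction w with
  | nil => rfl
  | cons hadj _ ih =>
    rw [← ih]
    rename_i u v _ _
    rcases u with p | i <;> rcases v with q | j
    · rfl
    · exact absurd hadj (ex_lr p j)
    · exact absurd hadj (ex_rl q i)
    · rfl

/-- **Negative answer to Q1 and Q2.** There is a minimum-order `(7, 8, 8)`-graph `G`, on 22
vertices, which is disconnected and in which no vertex of degree `8 = Δ(G)` lies in a subgraph
`K_7`. -/
theorem result : ∃ (V : Type) (_ : Fintype V) (G : SimpleGraph V) (_ : DecidableRel G.Adj),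
    IsMinimumOrder G 7 8 8 ∧ Fintype.card V = 22 ∧ ¬ G.Connected ∧
      ∀ v : V, G.degree v = 8 → ∀ s : Finset V, G.IsNClique 7 s → v ∉ s := by
  have hcard : Fintype.card X = 22 := by simp [X]
  refine ⟨X, inferInstance, Ex, inferInstance, ⟨via_ex, ?_⟩, hcard, ?_, ?_⟩
  · intro W _ H _ hH
    rw [hcard]
    exact lower W H hH
  · intro hcon
    have := reach_side (hcon.preconnected (Sum.inl (0, 0)) (Sum.inr 0))
    simp at this
  · intro v hv s hs hvs
    rcases v with p | i
    · have := clique_left s hs.1 p hvs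
      rw [hs.2] at this
      omega
    · rw [deg_r i] at hv
      omega

end Pool.Agent.Results.MP_663e97_co.DisconnectedMinOrder
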